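import Pool.Agent.H40.G8

set_option autoImplicit false

namespace Pool.Agent.Results.MP_ea9bab_gt.Model

open Pool.Agent.H40.Bspt Pool.Agent.H40.Jz Pool.Agent.H40.Gn

theorem result : ∃ (M : Type) (E : M → M → Prop), IsZF E ∧ ∃ D S : M, ¬ IsFin E D ∧
    (∀ U, E U S ↔ Sub E U D) ∧ DenRem E D S ∧ ¬ NinfRem E D S := by
  obtain ⟨M, E, ⟨R⟩⟩ := ex_rm
  obtain ⟨S, hS⟩ := R.zf.power R.D
  exact ⟨M, E, R.zf, R.D, S, R.inf, hS, R.den hS, R.no_inf hS⟩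

end Pool.Agent.Results.MP_ea9bab_gt.Model
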